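import Pool.Agent.TH270.SH.Pos
import Pool.Agent.TH652.COL.NF

/-!
# Order, leading coefficient and zeros at the centre: one limit formula for numbers of points

`X` is a projective variety of dimension `d` over a number field `K` (for the conjecture: `K = ℚ`), given by
homogeneous polynomials over `𝓞 K`, `B_v` are the Euler factors of `L(s) = L(H^i(X), s)`: for almost all
primes `v` the polynomial `∏ (1 - α_j z)` of the eigenvalues of Frobenius on `H^i`, which are determined by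
the numbers of points of `X` over the finite extensions of the residue field, and at the other primes
arbitrary real polynomials with constant term `1` whose roots have absolute values `≥ q_v^{-i/2}`. Let
`c = (i+1)/2` be the centre (the point `s = m` of the conjecture of Beilinson for `i = 2 m - 1`) and
`p_k(v)` the sum of the `k`-th powers of the inverse roots of `B_v`, so that
`log L(s) = ∑ p_k(v) / (k q_v^{ks})`, `Re s > i/2 + 1`. For `ρ' > ρ > 1` let
`w_ρ(u) = (2π)⁻¹ ∫ Re (exp (z - u z^(1/ρ)) / z) dt`, `z = 1 + i t`, and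

`Λ_ρ(X) = exp ∑_{q_v^k ≤ exp ((log X)^ρ')} p_k(v) / (k q_v^{kc}) · w_ρ(log q_v^k / log X)`,

the partial Euler product of `L` at the centre with random cut-off (a finite sum over prime powers). It is
shown, for all varieties and all `i`:

* WITHOUT any assumption on the continuation of `L`: for all `ρ₀ ≥ 1`, `r` and `A > 0` the limit formula

  `Λ_ρ(X) (log X)^r → A e^{-rγ/ρ}`  for all `ρ' > ρ > ρ₀`  (`γ` is Euler's constant)

  holds if and only if `L` has a holomorphic continuation without zeros to the sector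
  `|arg (s - c)| < π / (2ρ₀)` and `L(s) / (s - c)^r → A` as `s → c` in every smaller sector;
* if `F` is a continuation of `L` which is holomorphic for `Re s > c` and at `c` (so `(H1)` holds), then the
  limit formula (with any real `A ≠ 0`, which then is positive) is equivalent to: `F` has order `r` and
  leading coefficient `A` at `c` and no zeros in the sector;
* hence for every real number `P ≠ 0` (for the conjecture: `P = det Π · det ⟨ , ⟩`) and every `r` (the
  dimension of `V^m`): `ord F = r`, `F^* ∈ ℚ^* P` and the Riemann hypothesis for `F` hold together if and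
  only if `Λ_ρ(X) (log X)^r → b P e^{-rγ/ρ}` for all `ρ > 1`, with a rational number `b`, `b P > 0`.
-/

set_option autoImplicit false

open Filter Topology NumberField IsDedekindDomain Polynomial

namespace Pool.Agent.Results.MP_29b22a_nt.LimitFormula

open Pool.Agent.TH652.COL (IsEulerSystem IsFrobenius cone)

section definitions

variable {K : Type} [Field K] [NumberField K]

/-- The norm `q_v` of a prime. -/
noncomputable def q (v : HeightOneSpectrum (𝓞 K)) : ℕ := Ideal.absNorm v.asIdeal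

/-- All complex roots of all `B_v` have absolute value at least `q_v^{-i/2}`. For almost all `v` this
follows from `IsEulerSystem`; it is the purity of the Euler factors at the other primes. -/
def IsPure (B : HeightOneSpectrum (𝓞 K) → ℝ[X]) (i : ℕ) : Prop :=
  ∀ v, ∀ ρ : ℂ, ((B v).map (algebraMap ℝ ℂ)).IsRoot ρ → (q v : ℝ) ^ (-((i : ℝ) / 2)) ≤ ‖ρ‖

/-- The `L`-function, the product of the `B_v(q_v^{-s})⁻¹`; it is used for `Re s > i/2 + 1`, where the
product converges absolutely. -/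
noncomputable def L (B : HeightOneSpectrum (𝓞 K) → ℝ[X]) (s : ℂ) : ℂ :=
  ∏' v : HeightOneSpectrum (𝓞 K), (((B v).map (algebraMap ℝ ℂ)).eval ((q v : ℂ) ^ (-s)))⁻¹

/-- The centre `(i + 1)/2`. -/
noncomputable def centre (i : ℕ) : ℝ := ((i : ℝ) + 1) / 2

/-- `p_k(v)`: the sum of the `k`-th powers of the inverses of the complex roots of `B_v` (a real
number), for almost all `v` the trace of the `k`-th power of the Frobenius. -/
noncomputable def powerSum (B : HeightOneSpectrum (𝓞 K) → ℝ[X]) (k : ℕ)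
    (v : HeightOneSpectrum (𝓞 K)) : ℝ :=
  ((((B v).map (algebraMap ℝ ℂ)).roots.map fun ρ => (ρ⁻¹) ^ k).sum).re

/-- The weight `w_ρ(u) = (2π)⁻¹ ∫ Re (exp (z - u z^(1/ρ)) / z) dt`, `z = 1 + i t`. -/
noncomputable def weight (ρ u : ℝ) : ℝ :=
  (2 * Real.pi)⁻¹ * ∫ t : ℝ, (Complex.exp ((1 + t * Complex.I) -
    u * (1 + t * Complex.I) ^ ((ρ⁻¹ : ℝ) : ℂ)) / (1 + t * Complex.I)).re

/-- `Λ_ρ(X)`: the exponential of the sum over the powers `v^k`, `k = j + 1 ≥ 1`, of the primes with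
`q_v^k ≤ exp ((log X)^ρ')` of the numbers `w_ρ(k log q_v / log X) · p_k(v) / (k q_v^{kc})`. -/
noncomputable def partialProduct (B : HeightOneSpectrum (𝓞 K) → ℝ[X]) (i : ℕ) (ρ ρ' X : ℝ) : ℝ :=
  Real.exp (∑ᶠ (p : HeightOneSpectrum (𝓞 K) × ℕ)
    (_ : (q p.1 : ℝ) ^ (p.2 + 1) ≤ Real.exp (Real.log X ^ ρ')),
    weight ρ (((p.2 : ℝ) + 1) * Real.log (q p.1) / Real.log X) *
      (powerSum B (p.2 + 1) p.1 / (((p.2 : ℝ) + 1) * ((q p.1 : ℝ) ^ centre i) ^ (p.2 + 1))))

/-- The limit formula `Λ_ρ(X) (log X)^r → A e^{-rγ/ρ}` for all `ρ' > ρ > ρ₀`. -/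
def Formula (B : HeightOneSpectrum (𝓞 K) → ℝ[X]) (i : ℕ) (ρ₀ : ℝ) (r : ℕ) (A : ℝ) : Prop :=
  ∀ ρ ρ' : ℝ, ρ₀ < ρ → ρ < ρ' →
    Tendsto (fun X : ℝ => partialProduct B i ρ ρ' X * Real.log X ^ r) atTop
      (𝓝 (A * Real.exp (-(r * Real.eulerMascheroniConstant / ρ))))

/-- The sector `|arg (s - c)| < π / (2ρ)`, `c = (i + 1)/2`; the half plane `Re s > c` if `ρ = 1`. -/
def Sector (i : ℕ) (ρ : ℝ) : Set ℂ :=
  {s | s ≠ centre i ∧ |(s - centre i).arg| < Real.pi / (2 * ρ)}

/-- `G` is holomorphic and has no zeros on the union of `U` and the half plane `Re s > i/2 + 1`, where it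
is equal to `L`. -/
def ZeroFreeContinuation (B : HeightOneSpectrum (𝓞 K) → ℝ[X]) (i : ℕ) (U : Set ℂ) (G : ℂ → ℂ) : Prop :=
  (∀ s : ℂ, s ∈ U ∨ (i : ℝ) / 2 + 1 < s.re → DifferentiableAt ℂ G s ∧ G s ≠ 0) ∧
    ∀ s : ℂ, (i : ℝ) / 2 + 1 < s.re → G s = L B s

/-- `F` is holomorphic for `Re s > (i + 1)/2` and at `s = (i + 1)/2`, and is equal to `L` for
`Re s > i/2 + 1`. -/
def Continues (B : HeightOneSpectrum (𝓞 K) → ℝ[X]) (i : ℕ) (F : ℂ → ℂ) : Prop :=
  (∀ s : ℂ, centre i < s.re → DifferentiableAt ℂ F s) ∧ AnalyticAt ℂ F (centre i) ∧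
    ∀ s : ℂ, (i : ℝ) / 2 + 1 < s.re → F s = L B s

/-- `F` has order `r` and leading Taylor coefficient `A ≠ 0` at the centre:
`F(s) / (s - c)^r → A` as `s → c`. -/
def HasLeadingTerm (F : ℂ → ℂ) (i r : ℕ) (A : ℝ) : Prop :=
  A ≠ 0 ∧ Tendsto (fun s => F s / (s - centre i) ^ r) (𝓝[≠] (centre i : ℂ)) (𝓝 (A : ℂ))

end definitions

section proofs

open Pool.Agent.TH270.SH Pool.Agent.TH942.ES
open Pool.Agent.TH942.SL (Sect)

variable {K : Type} [Field K] [NumberField K] {B : HeightOneSpectrum (𝓞 K) → ℝ[X]} {i D : ℕ}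
  {F : ℂ → ℂ} {ρ ρ' : ℝ}

theorem centre_half (i : ℕ) : centre i + 1 / 2 = (i : ℝ) / 2 + 1 := by
  unfold centre
  ring

theorem eul (h0 : ∀ v, (B v).coeff 0 = 1) (hD : ∀ v, (B v).natDegree ≤ D) (hp : IsPure B i) :
    Eul B D (centre i) where
  const := h0
  deg := hD
  root := fun v ρ hρ => by
    have h := hp v ρ hρ
    have e : (1 : ℝ) / 2 - centre i = -((i : ℝ) / 2) := by
      unfold centre
      ring
    rw [e]
    exact h

theorem partialProduct_eq (h : Eul B D (centre i)) (ρ ρ' X : ℝ) :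
    partialProduct B i ρ ρ' X = Real.exp (StE nmK (alB B D (centre i)) ρ ρ' X) := by
  unfold partialProduct StE
  congr 1
  refine finsum_congr fun p => ?_
  refine finsum_congr fun _ => ?_
  rw [h.cP_eq p]
  rfl

theorem sector_eq (i : ℕ) (ρ : ℝ) : Sector i ρ = {s : ℂ | s - centre i ∈ Sect ρ} := by
  ext s
  simp only [Sector, Sect, Set.mem_ofPred_eq, ne_eq, sub_eq_zero]

theorem mem_sector_one (i : ℕ) (s : ℂ) : s ∈ Sector i 1 ↔ centre i < s.re := by
  rw [sector_eq, sect_one]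
  simp only [Set.mem_ofPred_eq, Complex.sub_re, Complex.ofReal_re, sub_pos]

/-- the limit formula for the partial products, no continuation assumed -/
theorem formula_iff (h : Eul B D (centre i)) {ρ₀ : ℝ} (hρ₀ : 1 ≤ ρ₀) (r : ℕ) {A : ℝ} (hA : 0 < A) :
    Formula B i ρ₀ r A ↔
    ∃ G : ℂ → ℂ, ZeroFreeContinuation B i (Sector i ρ₀) G ∧
      ∀ ρ : ℝ, ρ₀ < ρ → Tendsto (fun s => G s / (s - centre i) ^ r) (𝓝[Sector i ρ] (centre i : ℂ))
        (𝓝 (A : ℂ)) := by
  have key := h.star hρ₀ r hA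
  unfold Formula
  simp only [partialProduct_eq h]
  rw [key]
  unfold ZeroFreeContinuation
  simp only [sector_eq, centre_half]
  constructor
  · rintro ⟨G, h1, h2, h3⟩
    exact ⟨G, ⟨h1, h2⟩, h3⟩
  · rintro ⟨G, ⟨h1, h2⟩, h3⟩
    exact ⟨G, h1, h2, h3⟩

/-- the limit formula for a given continuation -/
theorem formula_con (h : Eul B D (centre i)) (hF : Continues B i F) {ρ₀ : ℝ} (hρ₀ : 1 ≤ ρ₀) (r : ℕ)
    {A : ℝ} (hA : A ≠ 0) :
    (0 < A ∧ Formula B i ρ₀ r A) ↔ HasLeadingTerm F i r A ∧ ∀ s ∈ Sector i ρ₀, F s ≠ 0 := by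
  have key := h.star_all hF.1 hF.2.1
    (fun s hs => hF.2.2 s (by rwa [centre_half] at hs)) hρ₀ r hA
  unfold Formula HasLeadingTerm
  simp only [partialProduct_eq h, sector_eq]
  rw [key]
  exact and_congr_left fun _ => ⟨fun h1 => ⟨hA, h1⟩, fun h1 => h1.2⟩

end proofs

/-- **Order, leading coefficient and zeros at the centre as one limit formula.** -/
theorem result (K : Type) [Field K] [NumberField K] {n : ℕ} (X : Set (MvPolynomial (Fin n) (𝓞 K)))
    (d i N : ℕ) (B : HeightOneSpectrum (𝓞 K) → ℝ[X]) (hB : IsEulerSystem X d i N B)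
    (hpure : IsPure B i) :
    -- no continuation assumed
    (∀ ρ₀ : ℝ, 1 ≤ ρ₀ → ∀ (r : ℕ) (A : ℝ), 0 < A →
      (Formula B i ρ₀ r A ↔
        ∃ G : ℂ → ℂ, ZeroFreeContinuation B i (Sector i ρ₀) G ∧
          ∀ ρ : ℝ, ρ₀ < ρ → Tendsto (fun s => G s / (s - centre i) ^ r)
            (𝓝[Sector i ρ] (centre i : ℂ)) (𝓝 (A : ℂ)))) ∧
    ∀ F : ℂ → ℂ, Continues B i F → ∀ r : ℕ,
      -- for a given continuation: order, leading coefficient and zeros in a sector
      (∀ ρ₀ : ℝ, 1 ≤ ρ₀ → ∀ A : ℝ, A ≠ 0 →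
        ((0 < A ∧ Formula B i ρ₀ r A) ↔
          HasLeadingTerm F i r A ∧ ∀ s ∈ Sector i ρ₀, F s ≠ 0)) ∧
      -- the leading coefficient up to rational factors, and the Riemann hypothesis
      ∀ P : ℝ, P ≠ 0 →
        ((∃ b : ℚ, 0 < b * P ∧ Formula B i 1 r (b * P)) ↔
          (∃ b : ℚ, b ≠ 0 ∧ HasLeadingTerm F i r (b * P)) ∧
            ∀ s : ℂ, centre i < s.re → F s ≠ 0) := by
  obtain ⟨N', ⟨β₀, E⟩, -⟩ := hB.ldata
  have h : Pool.Agent.TH270.SH.Eul B N' (centre i) := eul hB.const (fun v => E.deg v) hpure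
  refine ⟨fun ρ₀ hρ₀ r A hA => formula_iff h hρ₀ r hA, fun F hF r =>
    ⟨fun ρ₀ hρ₀ A hA => formula_con h hF hρ₀ r hA, fun P hP => ?_⟩⟩
  have key : ∀ b : ℚ, (b : ℝ) * P ≠ 0 → ((0 < (b : ℝ) * P ∧ Formula B i 1 r (b * P)) ↔
      HasLeadingTerm F i r (b * P) ∧ ∀ s : ℂ, centre i < s.re → F s ≠ 0) := by
    intro b hb
    rw [formula_con h hF le_rfl r hb]
    simp only [mem_sector_one]
  constructor
  · rintro ⟨b, h1, h2⟩
    have h3 := (key b h1.ne').1 ⟨h1, h2⟩
    refine ⟨⟨b, ?_, h3.1⟩, h3.2⟩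
    rintro rfl
    simp at h1
  · rintro ⟨⟨b, h1, h2⟩, h3⟩
    have hb : (b : ℝ) * P ≠ 0 := mul_ne_zero (by exact_mod_cast h1) hP
    exact ⟨b, (key b hb).2 ⟨h2, h3⟩⟩

end Pool.Agent.Results.MP_29b22a_nt.LimitFormula
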