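import Pool.Agent.TH122.NorB

/-!
# Northcott's property and the height pairing in the middle dimension

`V` is the rational vector space `V^m = CH^m(X)^0 ⊗ ℚ` of a variety `X` of dimension `n = 2m - 1`,
`b` is the height pairing on `V^m × V^(n+1-m) = V^m × V^m`, and `L` is the image of
`CH^m(X)^0` in `V^m`.
-/

set_option autoImplicit false

namespace Pool.Agent.Results.MP_29b22a_nt.NorthcottDefinite

open Pool.Agent.TH122.Nor

variable {V : Type} [AddCommGroup V] [Module ℚ V]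

theorem Q_neg {r : ℕ} (b : V →ₗ[ℚ] V →ₗ[ℚ] ℝ) (v : Fin r → V) (c d : Fin r → ℝ) :
    Q (-b) v c d = - Q b v c d := by
  unfold Q
  simp only [← Finset.sum_neg_distrib]
  refine Finset.sum_congr rfl fun i _ => Finset.sum_congr rfl fun j _ => ?_
  simp only [LinearMap.neg_apply]
  ring

theorem northcott_neg {b : V →ₗ[ℚ] V →ₗ[ℚ] ℝ} {L : AddSubgroup V} (h : Northcott b L) :
    Northcott (-b) L := by
  intro T
  have h1 := h T
  have h2 : {x : V | x ∈ L ∧ |(-b) x x| ≤ T} = {x : V | x ∈ L ∧ |b x x| ≤ T} := by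
    ext x
    simp only [LinearMap.neg_apply, abs_neg]
  rw [h2]
  exact h1

theorem definite {b : V →ₗ[ℚ] V →ₗ[ℚ] ℝ} (hs : ∀ x y, b x y = b y x) {L : AddSubgroup V}
    (hL : ∀ v : V, ∃ n : ℕ, n ≠ 0 ∧ n • v ∈ L) (hN : Northcott b L) :
    ∃ ε : ℝ, (ε = 1 ∨ ε = -1) ∧ ∀ (r : ℕ) (v : Fin r → V), LinearIndependent ℚ v →
        ∀ c : Fin r → ℝ, c ≠ 0 → 0 < ε * ∑ i, ∑ j, c i * c j * b (v i) (v j) := by
  rcases nor_pos_or_neg hs hN hL with h | h
  · refine ⟨1, Or.inl rfl, fun r v hv c hc => ?_⟩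
    rw [one_mul]
    exact Q_pos hs h hN hL v hv c hc
  · refine ⟨-1, Or.inr rfl, fun r v hv c hc => ?_⟩
    have h1 := Q_pos (b := -b) (fun x y => by simp only [LinearMap.neg_apply, hs x y])
      (fun v hv => by simpa only [LinearMap.neg_apply, Left.neg_pos_iff] using h v hv)
      (northcott_neg hN) hL v hv c hc
    rw [Q_neg] at h1
    have h2 : -1 * ∑ i, ∑ j, c i * c j * b (v i) (v j) = - Q b v c c := by
      unfold Q
      ring
    rw [h2]
    exact h1

theorem result (V : Type) [AddCommGroup V] [Module ℚ V] (b : V →ₗ[ℚ] V →ₗ[ℚ] ℝ)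
    (hs : ∀ x y, b x y = b y x) (L : AddSubgroup V)
    (hL : ∀ v : V, ∃ n : ℕ, n ≠ 0 ∧ n • v ∈ L) :
    ((∀ T : ℝ, {x : V | x ∈ L ∧ |b x x| ≤ T}.Finite) →
      ∃ ε : ℝ, (ε = 1 ∨ ε = -1) ∧ ∀ (r : ℕ) (v : Fin r → V), LinearIndependent ℚ v →
        ∀ c : Fin r → ℝ, c ≠ 0 → 0 < ε * ∑ i, ∑ j, c i * c j * b (v i) (v j)) ∧
    (((∀ T : ℝ, {x : V | x ∈ L ∧ |b x x| ≤ T}.Finite) ∧
      ∃ N : ℕ, 2 ≤ N ∧ ∃ S : Finset V, (∀ s ∈ S, s ∈ L) ∧
        ∀ x ∈ L, ∃ s ∈ S, ∃ y ∈ L, x = s + N • y) ↔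
      (L.FG ∧ ∃ ε : ℝ, (ε = 1 ∨ ε = -1) ∧ ∀ (r : ℕ) (v : Fin r → V), LinearIndependent ℚ v →
        ∀ c : Fin r → ℝ, c ≠ 0 → 0 < ε * ∑ i, ∑ j, c i * c j * b (v i) (v j))) := by
  refine ⟨fun hN => definite hs hL hN, ?_, ?_⟩
  · rintro ⟨hN, N, hN2, S, hSL, hS⟩
    refine ⟨?_, definite hs hL hN⟩
    have hN' : Northcott b L := hN
    rcases nor_pos_or_neg hs hN' hL with h | h
    · exact fg_of hs h hN' hN2 hSL hS
    · exact fg_of (b := -b) (fun x y => by simp only [LinearMap.neg_apply, hs x y])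
        (fun v hv => by simpa only [LinearMap.neg_apply, Left.neg_pos_iff] using h v hv)
        (northcott_neg hN') hN2 hSL hS
  · rintro ⟨hfg, ε, hε, hdef⟩
    refine ⟨?_, 2, le_rfl, ?_⟩
    · rcases hε with rfl | rfl
      · refine northcott_of hfg (fun r v hv c hc => ?_)
        have := hdef r v hv c hc
        rw [one_mul] at this
        exact this
      · have h1 : Northcott (-b) L := by
          refine northcott_of hfg (fun r v hv c hc => ?_)
          have h2 := hdef r v hv c hc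
          rw [Q_neg]
          have h3 : -1 * ∑ i, ∑ j, c i * c j * b (v i) (v j) = - Q b v c c := by
            unfold Q
            ring
          rw [← h3]
          exact h2
        have h4 := northcott_neg h1
        rw [neg_neg] at h4
        exact h4
    · obtain ⟨S, hSL, hS⟩ := weak_of hfg
      exact ⟨S, hSL, hS⟩

end Pool.Agent.Results.MP_29b22a_nt.NorthcottDefinite
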