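import Pool.Agent.TH270.RS.Eul
import Pool.Agent.TH652.COL.NF

/-!
# The leading coefficient at the centre and the Riemann hypothesis from Riesz products, all varieties

`X` is a projective variety of dimension `d` over a number field `K` (for the conjecture: `K = ℚ`), given by
homogeneous polynomials over `𝓞 K`, `B_v` are the Euler factors of `L(s) = L(H^i(X), s)`: for almost all
primes `v` the polynomial `∏ (1 - α_j z)` of the eigenvalues of Frobenius on `H^i`, which are determined by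
the numbers of points of `X` over the finite extensions of the residue field, and at the other primes
arbitrary real polynomials with constant term `1` whose roots have absolute values `≥ q_v^{-i/2}`. Let
`c = (i+1)/2` be the centre (the point `s = m` of the conjecture of Beilinson for `i = 2 m - 1`) and `p_j(v)`
the sum of the `j`-th powers of the inverse roots of `B_v`, so that `log L(s) = ∑ p_j(v) / (j q_v^{js})` for
`Re s > i/2 + 1`. For real `k > 0` let

`Π_k(X) = exp ∑_{q_v^j ≤ X} (1 - log q_v^j / log X)^k p_j(v) / (j q_v^{jc})`,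

the partial Euler product of `L` at the centre with the Riesz weight of order `k`. Let `F` be a continuation
of `L`, holomorphic for `Re s > c` and at `s = c`, of polynomial growth (for `Re s > c`, in the weak form
`|F(s)| ≤ C (1 + |s|)^κ (1 + 1/(Re s - c))^κ`). It is shown, for all varieties, all `i`, all natural numbers
`r` and all real `A ≠ 0`: the following are equivalent (`ψ = Γ'/Γ`):

* `F(s) / (s - c)^r → A` as `s → c`, and `F` has no zeros with `Re s > c`;
* `A > 0` and `(log X)^r Π_k(X) → A e^{r ψ(k+1)}` for all real `k > 0`;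
* `A > 0` and `(log X)^r Π_k(X) → A e^{r ψ(k+1)}` for one real `k > 0`.

Hence for every real number `P ≠ 0` (for the conjecture: `P = det Π · det ⟨ , ⟩`) and every `r` (the dimension
of `V^m`) the three conditions `ord F = r`, `F^* ∈ ℚ^* P` and the Riemann hypothesis for `F` hold together if
and only if for one `k > 0` (then for all `k > 0`) the numbers `(log X)^r Π_k(X)` tend to
`b P e^{r ψ(k+1)}` with a rational number `b`, `b P > 0`.
-/

set_option autoImplicit false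

open Filter Topology NumberField IsDedekindDomain Polynomial MeasureTheory

namespace Pool.Agent.Results.MP_29b22a_nt.RieszFormula

open Pool.Agent.TH652.COL (IsEulerSystem IsFrobenius cone)

section definitions

variable {K : Type} [Field K] [NumberField K]

/-- The norm `q_v` of a prime. -/
noncomputable def q (v : HeightOneSpectrum (𝓞 K)) : ℕ := Ideal.absNorm v.asIdeal

/-- All complex roots of all `B_v` have absolute value at least `q_v^{-i/2}`. For almost all `v` this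
follows from `IsEulerSystem`; it is the purity of the Euler factors at the other primes. -/
def IsPure (B : HeightOneSpectrum (𝓞 K) → ℝ[X]) (i : ℕ) : Prop :=
  ∀ v, ∀ ρ : ℂ, ((B v).map (algebraMap ℝ ℂ)).IsRoot ρ → (q v : ℝ) ^ (-((i : ℝ) / 2)) ≤ ‖ρ‖

/-- The `L`-function, the product of the `B_v(q_v^{-s})⁻¹`; it is used for `Re s > i/2 + 1`, where the
product converges absolutely. -/
noncomputable def L (B : HeightOneSpectrum (𝓞 K) → ℝ[X]) (s : ℂ) : ℂ :=
  ∏' v : HeightOneSpectrum (𝓞 K), (((B v).map (algebraMap ℝ ℂ)).eval ((q v : ℂ) ^ (-s)))⁻¹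

/-- The centre `(i + 1)/2`. -/
noncomputable def centre (i : ℕ) : ℝ := ((i : ℝ) + 1) / 2

/-- `p_j(v)`: the sum of the `j`-th powers of the inverses of the complex roots of `B_v` (a real
number), for almost all `v` the trace of the `j`-th power of the Frobenius. -/
noncomputable def powerSum (B : HeightOneSpectrum (𝓞 K) → ℝ[X]) (j : ℕ)
    (v : HeightOneSpectrum (𝓞 K)) : ℝ :=
  ((((B v).map (algebraMap ℝ ℂ)).roots.map fun ρ => (ρ⁻¹) ^ j).sum).re

/-- `Π_k(X)`: the exponential of the sum over the powers `v^j`, `j = l + 1 ≥ 1`, of the primes with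
`q_v^j ≤ X` of the numbers `(1 - j log q_v / log X)^k · p_j(v) / (j q_v^{jc})`. -/
noncomputable def rieszProduct (B : HeightOneSpectrum (𝓞 K) → ℝ[X]) (i : ℕ) (k X : ℝ) : ℝ :=
  Real.exp (∑ᶠ (p : HeightOneSpectrum (𝓞 K) × ℕ) (_ : (q p.1 : ℝ) ^ (p.2 + 1) ≤ X),
    (1 - ((p.2 : ℝ) + 1) * Real.log (q p.1) / Real.log X) ^ k *
      (powerSum B (p.2 + 1) p.1 / (((p.2 : ℝ) + 1) * ((q p.1 : ℝ) ^ centre i) ^ (p.2 + 1))))

/-- The digamma function `ψ = Γ'/Γ`. -/
noncomputable def psi (x : ℝ) : ℝ := deriv Real.Gamma x / Real.Gamma x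

/-- The limit formula `(log X)^r Π_k(X) → A e^{r ψ(k+1)}`. -/
def Formula (B : HeightOneSpectrum (𝓞 K) → ℝ[X]) (i : ℕ) (k : ℝ) (r : ℕ) (A : ℝ) : Prop :=
  Tendsto (fun X : ℝ => Real.log X ^ r * rieszProduct B i k X) atTop
    (𝓝 (A * Real.exp (r * psi (k + 1))))

/-- `F` is holomorphic for `Re s > (i + 1)/2` and at `s = (i + 1)/2`, and is equal to `L` for
`Re s > i/2 + 1`. -/
def Continues (B : HeightOneSpectrum (𝓞 K) → ℝ[X]) (i : ℕ) (F : ℂ → ℂ) : Prop :=
  (∀ s : ℂ, centre i < s.re → DifferentiableAt ℂ F s) ∧ AnalyticAt ℂ F (centre i) ∧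
    ∀ s : ℂ, (i : ℝ) / 2 + 1 < s.re → F s = L B s

/-- No zeros with `Re s > (i + 1)/2`. -/
def NoZeros (F : ℂ → ℂ) (i : ℕ) : Prop := ∀ s : ℂ, centre i < s.re → F s ≠ 0

/-- `F` has order `r` and leading Taylor coefficient `A ≠ 0` at the centre:
`F(s) / (s - c)^r → A` as `s → c`. -/
def HasLeadingTerm (F : ℂ → ℂ) (i r : ℕ) (A : ℝ) : Prop :=
  A ≠ 0 ∧ Tendsto (fun s => F s / (s - centre i) ^ r) (𝓝[≠] (centre i : ℂ)) (𝓝 (A : ℂ))

/-- Polynomial growth for `Re s > c`: `|F(s)| ≤ C (1 + |s|)^κ (1 + 1/(Re s - c))^κ`. -/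
def HasPolynomialGrowth (F : ℂ → ℂ) (i : ℕ) : Prop :=
  ∃ (C : ℝ) (κ : ℕ), ∀ s : ℂ, centre i < s.re →
    ‖F s‖ ≤ C * (1 + ‖s‖) ^ κ * (1 + 1 / (s.re - centre i)) ^ κ

end definitions

section proofs

open Pool.Agent.TH270.SH Pool.Agent.TH270.RS Pool.Agent.TH942.ES
open Pool.Agent.TH942.RZ (rzw)

variable {K : Type} [Field K] [NumberField K] {B : HeightOneSpectrum (𝓞 K) → ℝ[X]} {i D : ℕ}
  {F : ℂ → ℂ}

theorem centre_half (i : ℕ) : centre i + 1 / 2 = (i : ℝ) / 2 + 1 := by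
  unfold centre
  ring

theorem eul (h0 : ∀ v, (B v).coeff 0 = 1) (hD : ∀ v, (B v).natDegree ≤ D) (hp : IsPure B i) :
    Eul B D (centre i) where
  const := h0
  deg := hD
  root := fun v ρ hρ => by
    have h := hp v ρ hρ
    have e : (1 : ℝ) / 2 - centre i = -((i : ℝ) / 2) := by
      unfold centre
      ring
    rw [e]
    exact h

theorem rieszProduct_eq (h : Eul B D (centre i)) (k : ℝ) {X : ℝ} (hX : 1 < X) :
    rieszProduct B i k X = Real.exp (Mw nmK (alB B D (centre i)) (rzw k) 1 X) := by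
  unfold rieszProduct Mw
  congr 1
  have hl := Real.log_pos hX
  refine finsum_congr fun p => ?_
  rw [Real.rpow_one]
  refine finsum_congr fun hp => ?_
  rw [h.cP_eq p]
  have hq : (0 : ℝ) < q p.1 := nm_pos p.1
  have h1 : ((p.2 : ℝ) + 1) * Real.log (q p.1) / Real.log X ≤ 1 := by
    rw [div_le_one hl]
    have h2 := Real.log_le_log (by positivity) hp
    rw [Real.log_pow] at h2
    push_cast at h2
    exact h2
  have h3 : rzw k (((p.2 : ℝ) + 1) * Real.log (q p.1) / Real.log X) =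
      (1 - ((p.2 : ℝ) + 1) * Real.log (q p.1) / Real.log X) ^ k := by
    unfold Pool.Agent.TH942.RZ.rzw
    rw [max_eq_left (by linarith)]
  rw [← h3]
  rfl

theorem formula_iff (h : Eul B D (centre i)) (k : ℝ) (r : ℕ) (A : ℝ) : Formula B i k r A ↔
    Tendsto (fun Y : ℝ => Real.exp (Mw nmK (alB B D (centre i)) (rzw k) 1 Y) * Real.log Y ^ r)
      atTop (𝓝 (A * Real.exp (r * (deriv Real.Gamma (k + 1) / Real.Gamma (k + 1))))) := by
  unfold Formula psi
  refine tendsto_congr' ?_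
  filter_upwards [eventually_gt_atTop 1] with X hX
  rw [rieszProduct_eq h k hX, mul_comm]

end proofs

/-- **The leading coefficient at the centre and the Riemann hypothesis from Riesz products.** -/
theorem result (K : Type) [Field K] [NumberField K] {n : ℕ} (X : Set (MvPolynomial (Fin n) (𝓞 K)))
    (d i N : ℕ) (B : HeightOneSpectrum (𝓞 K) → ℝ[X]) (hB : IsEulerSystem X d i N B)
    (hpure : IsPure B i) (F : ℂ → ℂ) (hF : Continues B i F) (hG : HasPolynomialGrowth F i) (r : ℕ) :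
    (∀ A : ℝ, A ≠ 0 → List.TFAE [
      HasLeadingTerm F i r A ∧ NoZeros F i,
      0 < A ∧ ∀ k : ℝ, 0 < k → Formula B i k r A,
      0 < A ∧ ∃ k : ℝ, 0 < k ∧ Formula B i k r A]) ∧
    ∀ P : ℝ, P ≠ 0 → List.TFAE [
      (∃ b : ℚ, b ≠ 0 ∧ HasLeadingTerm F i r (b * P)) ∧ NoZeros F i,
      ∃ b : ℚ, 0 < b * P ∧ ∀ k : ℝ, 0 < k → Formula B i k r (b * P),
      ∃ b : ℚ, 0 < b * P ∧ ∃ k : ℝ, 0 < k ∧ Formula B i k r (b * P)] := by
  obtain ⟨N', ⟨β₀, E⟩, -⟩ := hB.ldata
  have h : Pool.Agent.TH270.SH.Eul B N' (centre i) := eul hB.const (fun v => E.deg v) hpure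
  have he : ∀ s : ℂ, centre i + 1 / 2 < s.re → F s = Pool.Agent.TH270.SH.LB B s := fun s hs =>
    hF.2.2 s (by rwa [centre_half] at hs)
  obtain ⟨m, hm⟩ : ∃ m : ℕ, analyticOrderAt F (centre i) = m := by
    obtain ⟨m, hm⟩ := Pool.Agent.TH270.SH.exists_ord h.sys (h.con hF.1 he)
    exact ⟨m, by rw [← (Pool.Agent.TH270.SH.order_shift hF.2.1).2, hm]⟩
  have W := Pool.Agent.TH270.RS.lw h hF.1 hF.2.1 he hm
  have hz : (∀ s : ℂ, 0 < s.re → F (centre i + s) ≠ 0) ↔ NoZeros F i :=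
    Pool.Agent.TH270.RS.zf_iff
  have hc : 0 ≤ centre i := by
    unfold centre
    positivity
  have hG' := Pool.Agent.TH270.RS.grow_shift hc hG
  have key : ∀ A : ℝ, A ≠ 0 → List.TFAE [
      HasLeadingTerm F i r A ∧ NoZeros F i,
      0 < A ∧ ∀ k : ℝ, 0 < k → Formula B i k r A,
      0 < A ∧ ∃ k : ℝ, 0 < k ∧ Formula B i k r A] := by
    intro A hA
    simp only [formula_iff h]
    tfae_have 1 → 2 := by
      rintro ⟨⟨-, h1⟩, h2⟩
      have h3 := h.lead_pos hF.1 he (fun x hx => h2 _ (by rwa [Complex.ofReal_re]))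
        (by exact_mod_cast hA) h1
      have h4 : 0 < A := by simpa using h3.1
      have h5 : (∀ s : ℂ, 0 < s.re → F (centre i + s) ≠ 0) ∧
          Tendsto (fun s => F (centre i + s) / s ^ r) (𝓝[≠] 0) (𝓝 (A : ℂ)) :=
        ⟨hz.2 h2, Pool.Agent.TH270.RS.lead_shift.2 h1⟩
      exact ⟨h4, ((W.formula hG' r h4).out 0 1).1 h5⟩
    tfae_have 2 → 3 := fun ⟨h1, h2⟩ => ⟨h1, 1, one_pos, h2 1 one_pos⟩
    tfae_have 3 → 1 := by
      rintro ⟨h4, h5⟩
      have h6 : (∀ s : ℂ, 0 < s.re → F (centre i + s) ≠ 0) ∧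
          Tendsto (fun s => F (centre i + s) / s ^ r) (𝓝[≠] 0) (𝓝 (A : ℂ)) :=
        ((W.formula hG' r h4).out 2 0).1 h5
      exact ⟨⟨hA, Pool.Agent.TH270.RS.lead_shift.1 h6.2⟩, hz.1 h6.1⟩
    tfae_finish
  refine ⟨key, fun P hP => ?_⟩
  tfae_have 1 → 2 := by
    rintro ⟨⟨b, hb, h1⟩, h2⟩
    have hbP : (b : ℝ) * P ≠ 0 := mul_ne_zero (by exact_mod_cast hb) hP
    have h0 : HasLeadingTerm F i r (b * P) ∧ NoZeros F i := ⟨h1, h2⟩
    have h3 : 0 < (b : ℝ) * P ∧ ∀ k : ℝ, 0 < k → Formula B i k r (b * P) :=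
      ((key _ hbP).out 0 1).1 h0
    exact ⟨b, h3⟩
  tfae_have 2 → 3 := fun ⟨b, h1, h2⟩ => ⟨b, h1, 1, one_pos, h2 1 one_pos⟩
  tfae_have 3 → 1 := by
    rintro ⟨b, h1, h2⟩
    have h0 : 0 < (b : ℝ) * P ∧ ∃ k : ℝ, 0 < k ∧ Formula B i k r (b * P) := ⟨h1, h2⟩
    have h3 : HasLeadingTerm F i r (b * P) ∧ NoZeros F i := ((key _ h1.ne').out 2 0).1 h0
    refine ⟨⟨b, ?_, h3.1⟩, h3.2⟩
    rintro rfl
    simp at h1
  tfae_finish

end Pool.Agent.Results.MP_29b22a_nt.RieszFormula
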